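import Mathlib

set_option autoImplicit false

namespace Pool.Agent.H.MP_ddef6b_co

open Set

/-- A ground set with a family of distinguished subsets (the copies of the tile). -/
structure Sp where
  X : Type
  cp : Set X → Prop

namespace Sp

/-- `A` is a disjoint union of copies. -/
def Til (P : Sp) (A : Set P.X) : Prop :=
  ∃ C : Set (Set P.X), (∀ S ∈ C, P.cp S ∧ S ⊆ A) ∧ ∀ x ∈ A, ∃! S, S ∈ C ∧ x ∈ S

/-- Product of two spaces: copies run in one of the two factors. -/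
def prod (P Q : Sp) : Sp where
  X := P.X × Q.X
  cp S := (∃ A y, P.cp A ∧ S = A ×ˢ ({y} : Set Q.X)) ∨ ∃ x B, Q.cp B ∧ S = ({x} : Set P.X) ×ˢ B

variable {P Q : Sp}

lemma til_empty : P.Til ∅ := ⟨∅, by simp, by simp⟩

lemma til_copy {S : Set P.X} (h : P.cp S) : P.Til S :=
  ⟨{S}, by simpa using h, fun x hx => ⟨S, ⟨rfl, hx⟩, fun _ h => h.1⟩⟩

lemma til_iUnion {κ : Type} (A : κ → Set P.X) (h : ∀ k, P.Til (A k))
    (hd : ∀ k l x, x ∈ A k → x ∈ A l → k = l) : P.Til (⋃ k, A k) := by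
  choose C hC1 hC2 using h
  refine ⟨⋃ k, C k, ?_, ?_⟩
  · intro S hS
    obtain ⟨k, hk⟩ := mem_iUnion.1 hS
    exact ⟨(hC1 k S hk).1, (hC1 k S hk).2.trans (subset_iUnion A k)⟩
  · intro x hx
    obtain ⟨k, hk⟩ := mem_iUnion.1 hx
    obtain ⟨S, ⟨hS, hxS⟩, hu⟩ := hC2 k x hk
    refine ⟨S, ⟨mem_iUnion.2 ⟨k, hS⟩, hxS⟩, ?_⟩
    rintro S' ⟨hS', hxS'⟩
    obtain ⟨l, hl⟩ := mem_iUnion.1 hS'
    have : l = k := hd l k x ((hC1 l S' hl).2 hxS') hk
    subst this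
    exact hu S' ⟨hl, hxS'⟩

lemma til_union {A B : Set P.X} (hA : P.Til A) (hB : P.Til B) (hd : ∀ x, x ∈ A → x ∉ B) :
    P.Til (A ∪ B) := by
  rw [union_eq_iUnion]
  refine til_iUnion _ (fun b => by cases b <;> assumption) ?_
  intro k l x hk hl
  cases k <;> cases l
  · rfl
  · exact absurd hk (hd x hl)
  · exact absurd hl (hd x hk)
  · rfl

lemma til_congr {A B : Set P.X} (hA : P.Til A) (h : ∀ x, x ∈ B ↔ x ∈ A) : P.Til B := by
  have : B = A := Set.ext h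
  rw [this]; exact hA

lemma til_left {A : Set P.X} (hA : P.Til A) (Y : Set Q.X) : (P.prod Q).Til (A ×ˢ Y) := by
  obtain ⟨C, hC1, hC2⟩ := hA
  refine ⟨{S | ∃ S0 ∈ C, ∃ y ∈ Y, S = S0 ×ˢ ({y} : Set Q.X)}, ?_, ?_⟩
  · rintro S ⟨S0, hS0, y, hy, rfl⟩
    exact ⟨Or.inl ⟨S0, y, (hC1 S0 hS0).1, rfl⟩,
      Set.prod_mono (hC1 S0 hS0).2 (singleton_subset_iff.2 hy)⟩
  · rintro ⟨x, y⟩ ⟨hx, hy⟩
    obtain ⟨S, ⟨hS, hxS⟩, hu⟩ := hC2 x hx
    refine ⟨S ×ˢ ({y} : Set Q.X), ⟨⟨S, hS, y, hy, rfl⟩, hxS, rfl⟩, ?_⟩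
    rintro S' ⟨⟨S0, hS0, y', -, rfl⟩, h1, h2⟩
    have e1 : S0 = S := hu S0 ⟨hS0, h1⟩
    have e2 : y = y' := h2
    rw [e1, e2]

lemma til_right {B : Set Q.X} (hB : Q.Til B) (Y : Set P.X) : (P.prod Q).Til (Y ×ˢ B) := by
  obtain ⟨C, hC1, hC2⟩ := hB
  refine ⟨{S | ∃ S0 ∈ C, ∃ y ∈ Y, S = ({y} : Set P.X) ×ˢ S0}, ?_, ?_⟩
  · rintro S ⟨S0, hS0, y, hy, rfl⟩
    exact ⟨Or.inr ⟨y, S0, (hC1 S0 hS0).1, rfl⟩,
      Set.prod_mono (singleton_subset_iff.2 hy) (hC1 S0 hS0).2⟩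
  · rintro ⟨y, x⟩ ⟨hy, hx⟩
    obtain ⟨S, ⟨hS, hxS⟩, hu⟩ := hC2 x hx
    refine ⟨({y} : Set P.X) ×ˢ S, ⟨⟨S, hS, y, hy, rfl⟩, rfl, hxS⟩, ?_⟩
    rintro S' ⟨⟨S0, hS0, y', -, rfl⟩, h1, h2⟩
    have e1 : S0 = S := hu S0 ⟨hS0, h2⟩
    have e2 : y = y' := h1
    rw [e1, e2]

lemma til_fib (W : Set (P.X × Q.X)) (h : ∀ x, Q.Til {y | (x, y) ∈ W}) : (P.prod Q).Til W := by
  have := til_iUnion (P := P.prod Q) (fun x : P.X => ({x} : Set P.X) ×ˢ {y | (x, y) ∈ W})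
    (fun x => til_right (h x) _) (by
      rintro k l ⟨x, y⟩ ⟨h1, -⟩ ⟨h2, -⟩
      exact (show x = k from h1).symm.trans h2)
  refine til_congr this ?_
  rintro ⟨x, y⟩
  constructor
  · intro hx
    exact mem_iUnion.2 ⟨x, rfl, hx⟩
  · intro hx
    obtain ⟨x', h1, h2⟩ := mem_iUnion.1 hx
    have : x = x' := h1
    subst this
    exact h2

/-- Outside `Ω` the space is covered by tileable sets indexed by `κ`. -/
def Cov (P : Sp) (Ω : Set P.X) (κ : Type) : Prop :=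
  ∃ B : κ → Set P.X, (∀ i, P.Til (B i)) ∧ ∀ x, x ∉ Ω → ∃ i, x ∈ B i

lemma cov_univ (κ : Type) : P.Cov univ κ :=
  ⟨fun _ => ∅, fun _ => til_empty, fun x hx => absurd (mem_univ x) hx⟩

lemma cov_prod {Ω : Set P.X} {Ω' : Set Q.X} {κ : Type} (h : P.Cov Ω κ) (h' : Q.Cov Ω' κ) :
    (P.prod Q).Cov (Ω ×ˢ Ω') κ := by
  obtain ⟨B, hB, hc⟩ := h
  obtain ⟨B', hB', hc'⟩ := h'
  refine ⟨fun i => (B i ×ˢ univ) ∪ ((B i)ᶜ ×ˢ B' i), fun i =>
    til_union (til_left (hB i) _) (til_right (hB' i) _) ?_, ?_⟩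
  · rintro ⟨x, y⟩ ⟨h1, -⟩ ⟨h2, -⟩
    exact h2 h1
  · rintro ⟨x, y⟩ hxy
    by_cases hx : x ∈ Ω
    · have hy : y ∉ Ω' := fun hy => hxy ⟨hx, hy⟩
      obtain ⟨i, hi⟩ := hc' y hy
      refine ⟨i, ?_⟩
      by_cases hb : x ∈ B i
      · exact Or.inl ⟨hb, mem_univ _⟩
      · exact Or.inr ⟨hb, hi⟩
    · obtain ⟨i, hi⟩ := hc x hx
      exact ⟨i, Or.inl ⟨hi, mem_univ _⟩⟩

/-- `Ω` is cut into `m` consecutive parts, any two neighbouring parts forming a tileable set. -/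
def Path (P : Sp) (Ω : Set P.X) (m : ℕ) (p : P.X → ℕ) : Prop :=
  (∀ x ∈ Ω, p x < m) ∧ ∀ i, i + 1 < m → P.Til {x | x ∈ Ω ∧ (p x = i ∨ p x = i + 1)}

lemma path3 {A B : Set P.X} (hA : P.Til A) (hB : P.Til B) : ∃ p, P.Path (A ∪ B) 3 p := by
  classical
  refine ⟨fun x => if x ∉ A then 0 else if x ∈ B then 1 else 2, ?_, ?_⟩
  · intro x _
    dsimp only
    split_ifs <;> omega
  · intro i hi
    have : i = 0 ∨ i = 1 := by omega
    rcases this with rfl | rfl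
    · refine til_congr hB fun x => ?_
      by_cases h1 : x ∈ A <;> by_cases h2 : x ∈ B <;> simp [h1, h2]
    · refine til_congr hA fun x => ?_
      by_cases h1 : x ∈ A <;> by_cases h2 : x ∈ B <;> simp [h1, h2]

lemma path_mul {Ω : Set P.X} {U : Set Q.X} {m : ℕ} {p : P.X → ℕ} {q : Q.X → ℕ}
    (hp : P.Path Ω m p) (hq : Q.Path U 3 q) :
    ∃ r, (P.prod Q).Path (Ω ×ˢ U) (3 * m) r := by
  refine ⟨fun z : P.X × Q.X => if q z.2 = 0 then p z.1 else if q z.2 = 1 then 2 * m - 1 - p z.1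
    else 2 * m + p z.1, ?_, ?_⟩
  · rintro ⟨x, y⟩ ⟨hx, -⟩
    have := hp.1 x hx
    dsimp only
    split_ifs <;> omega
  · intro i hi
    have key : ∀ (V : Set (P.X × Q.X)) (f g : ℕ → Prop), (P.prod Q).Til V →
        (∀ x y, (x, y) ∈ V ↔ (x ∈ Ω ∧ f (p x)) ∧ (y ∈ U ∧ g (q y))) →
        (∀ a b, a < m → b < 3 → (((if b = 0 then a else if b = 1 then 2 * m - 1 - a
          else 2 * m + a) = i ∨ (if b = 0 then a else if b = 1 then 2 * m - 1 - a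
          else 2 * m + a) = i + 1) ↔ f a ∧ g b)) →
        (P.prod Q).Til {z : P.X × Q.X | z ∈ Ω ×ˢ U ∧ ((if q z.2 = 0 then p z.1 else
          if q z.2 = 1 then 2 * m - 1 - p z.1 else 2 * m + p z.1) = i ∨
          (if q z.2 = 0 then p z.1 else if q z.2 = 1 then 2 * m - 1 - p z.1
          else 2 * m + p z.1) = i + 1)} := by
      intro V f g hV h1 h2
      refine til_congr hV ?_
      rintro ⟨x, y⟩
      refine Iff.trans ?_ (h1 x y).symm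
      constructor
      · rintro ⟨⟨hx, hy⟩, h⟩
        have := (h2 _ _ (hp.1 x hx) (hq.1 y hy)).1 h
        exact ⟨⟨hx, this.1⟩, hy, this.2⟩
      · rintro ⟨⟨hx, hf⟩, hy, hg⟩
        exact ⟨⟨hx, hy⟩, (h2 _ _ (hp.1 x hx) (hq.1 y hy)).2 ⟨hf, hg⟩⟩
    by_cases c1 : i + 1 < m
    · refine key _ (fun a => a = i ∨ a = i + 1) (fun b => b = 0)
        (til_left (hp.2 i c1) {y | y ∈ U ∧ q y = 0}) (fun x y => Iff.rfl) ?_
      intro a b ha hb
      split_ifs <;> omega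
    by_cases c2 : i + 1 = m
    · refine key _ (fun a => a = i) (fun b => b = 0 ∨ b = 0 + 1)
        (til_right (hq.2 0 (by omega)) {x | x ∈ Ω ∧ p x = i}) (fun x y => Iff.rfl) ?_
      intro a b ha hb
      split_ifs <;> omega
    by_cases c3 : i + 1 < 2 * m
    · refine key _ (fun a => a = 2 * m - 2 - i ∨ a = 2 * m - 2 - i + 1) (fun b => b = 1)
        (til_left (hp.2 (2 * m - 2 - i) (by omega)) {y | y ∈ U ∧ q y = 1})
        (fun x y => Iff.rfl) ?_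
      intro a b ha hb
      split_ifs <;> omega
    by_cases c4 : i + 1 = 2 * m
    · refine key _ (fun a => a = 0) (fun b => b = 1 ∨ b = 1 + 1)
        (til_right (hq.2 1 (by omega)) {x | x ∈ Ω ∧ p x = 0}) (fun x y => Iff.rfl) ?_
      intro a b ha hb
      split_ifs <;> omega
    · refine key _ (fun a => a = i - 2 * m ∨ a = i - 2 * m + 1) (fun b => b = 2)
        (til_left (hp.2 (i - 2 * m) (by omega)) {y | y ∈ U ∧ q y = 2})
        (fun x y => Iff.rfl) ?_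
      intro a b ha hb
      split_ifs <;> omega

lemma path_seg {Ω : Set P.X} {m : ℕ} {p : P.X → ℕ} (hp : P.Path Ω m p) (a c : ℕ)
    (h : a + 2 * c ≤ m) : P.Til {x | x ∈ Ω ∧ a ≤ p x ∧ p x < a + 2 * c} := by
  induction c with
  | zero => exact til_congr til_empty fun x => ⟨fun h => by have := h.2; omega, fun h => h.elim⟩
  | succ c ih =>
    refine til_congr (til_union (ih (by omega)) (hp.2 (a + 2 * c) (by omega)) ?_) ?_
    · rintro x ⟨-, h1⟩ ⟨-, h2⟩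
      omega
    · intro x
      constructor
      · rintro ⟨hx, h1⟩
        by_cases h2 : p x < a + 2 * c
        · exact Or.inl ⟨hx, h1.1, h2⟩
        · exact Or.inr ⟨hx, by omega⟩
      · rintro (⟨hx, h1⟩ | ⟨hx, h1⟩)
        · exact ⟨hx, by omega⟩
        · exact ⟨hx, by omega⟩

/-- Cells used by the dominoes between two neighbouring columns. -/
def DD (v : ℤ) (j : ℕ) : Prop :=
  (0 ≤ v ∧ j % 2 = 0 ∧ (j : ℤ) < 2 * v) ∨ (v < 0 ∧ j % 2 = 1 ∧ (j : ℤ) < -2 * v)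

lemma grid {Ω : Set P.X} {Ω' : Set Q.X} {m M : ℕ} {p : P.X → ℕ} {q : Q.X → ℕ}
    (hp : P.Path Ω m p) (hq : Q.Path Ω' (M + 1) q) (hM : M % 2 = 0) (hMm : 2 * m ≤ M)
    (f xs : ℕ → ℤ) (hf : ∀ z, f z = 0 ∨ f z = 1) (h0 : xs 0 = 0)
    (hs : ∀ z, xs (z + 1) = 1 - f z - xs z) (hm : xs m = 0) :
    (P.prod Q).Til {w : P.X × Q.X | w.1 ∈ Ω ∧ w.2 ∈ Ω' ∧ ¬ (f (p w.1) = 1 ∧ q w.2 = M)} := by
  have hb : ∀ z : ℕ, -(z : ℤ) ≤ xs z ∧ xs z ≤ z := by
    intro z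
    induction z with
    | zero => simp [h0]
    | succ z ih =>
      have := hs z
      have := hf z
      push_cast
      omega
  have main : ∀ z, z ≤ m → (P.prod Q).Til {w : P.X × Q.X | w.1 ∈ Ω ∧ w.2 ∈ Ω' ∧
      ((p w.1 < z ∧ ¬ (f (p w.1) = 1 ∧ q w.2 = M)) ∨ (p w.1 = z ∧ DD (xs z) (q w.2)))} := by
    intro z
    induction z with
    | zero =>
      intro _
      refine til_congr til_empty fun w => ⟨?_, fun h => h.elim⟩
      rintro ⟨-, -, h | h⟩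
      · omega
      · have := h.2
        rw [h0] at this
        unfold DD at this
        omega
    | succ z ih =>
      intro hz
      have ih := ih (by omega)
      have b1 := hb z
      have e1 := hs z
      have e2 := hf z
      obtain ⟨s, c, hsc, hsc'⟩ : ∃ s c : ℕ, s + 2 * c ≤ M + 1 ∧ ∀ j : ℕ, j < M + 1 →
          ((¬ (f z = 1 ∧ j = M)) ↔ (DD (xs z) j ∨ (s ≤ j ∧ j < s + 2 * c) ∨ DD (xs (z + 1)) j)) ∧
          ¬ (DD (xs z) j ∧ s ≤ j) ∧ ¬ (DD (xs (z + 1)) j ∧ s ≤ j) ∧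
          ¬ (DD (xs z) j ∧ DD (xs (z + 1)) j) := by
        refine ⟨(xs z).natAbs + (xs (z + 1)).natAbs,
          (M + 1 - ((xs z).natAbs + (xs (z + 1)).natAbs)) / 2, by omega, ?_⟩
        intro j hj
        unfold DD
        omega
      have V1 : (P.prod Q).Til ({x | x ∈ Ω ∧ p x = z} ×ˢ
          {y | y ∈ Ω' ∧ s ≤ q y ∧ q y < s + 2 * c}) := til_right (path_seg hq s c hsc) _
      have V2 : (P.prod Q).Til ({x | x ∈ Ω ∧ (p x = z ∨ p x = z + 1)} ×ˢ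
          {y | y ∈ Ω' ∧ DD (xs (z + 1)) (q y)}) := by
        by_cases hz' : z + 1 < m
        · exact til_left (hp.2 z hz') _
        · have : z + 1 = m := by omega
          refine til_congr til_empty fun w => ⟨?_, fun h => h.elim⟩
          rintro ⟨-, -, h⟩
          rw [this, hm] at h
          unfold DD at h
          omega
      refine til_congr (til_union ih (til_union V1 V2 ?_) ?_) ?_
      · rintro ⟨x, y⟩ ⟨-, hy, h1⟩ ⟨-, -, h2⟩
        exact (hsc' _ (hq.1 y hy)).2.2.1 ⟨h2, h1.1⟩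
      · rintro ⟨x, y⟩ ⟨-, hy, h1⟩ (⟨⟨-, h2⟩, -, h3⟩ | ⟨⟨-, h2⟩, -, h3⟩)
        · rcases h1 with h1 | h1
          · have := h1.1
            dsimp only at this h2
            omega
          · exact (hsc' _ (hq.1 y hy)).2.1 ⟨h1.2, h3.1⟩
        · rcases h1 with h1 | h1
          · have := h1.1
            dsimp only at this h2
            omega
          · exact (hsc' _ (hq.1 y hy)).2.2.2 ⟨h1.2, h3⟩
      · rintro ⟨x, y⟩
        constructor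
        · rintro ⟨hx, hy, h | h⟩
          · dsimp only at hx hy h
            by_cases hlt : p x < z
            · exact Or.inl ⟨hx, hy, Or.inl ⟨hlt, h.2⟩⟩
            · have hz' : p x = z := by omega
              have h2 := h.2
              rw [hz'] at h2
              rcases (hsc' _ (hq.1 y hy)).1.1 h2 with h3 | h3 | h3
              · exact Or.inl ⟨hx, hy, Or.inr ⟨hz', h3⟩⟩
              · exact Or.inr (Or.inl ⟨⟨hx, hz'⟩, hy, h3⟩)
              · exact Or.inr (Or.inr ⟨⟨hx, Or.inl hz'⟩, hy, h3⟩)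
          · exact Or.inr (Or.inr ⟨⟨hx, Or.inr h.1⟩, hy, h.2⟩)
        · have aux : p x = z → y ∈ Ω' → (DD (xs z) (q y) ∨ (s ≤ q y ∧ q y < s + 2 * c) ∨
              DD (xs (z + 1)) (q y)) → p x < z + 1 ∧ ¬ (f (p x) = 1 ∧ q y = M) := by
            intro h1 hy h2
            refine ⟨by omega, ?_⟩
            rw [h1]
            exact (hsc' _ (hq.1 y hy)).1.2 h2
          rintro (⟨hx, hy, h | h⟩ | ⟨⟨hx, h1⟩, hy, h2⟩ | ⟨⟨hx, h1 | h1⟩, hy, h2⟩)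
          · exact ⟨hx, hy, Or.inl ⟨Nat.lt_succ_of_lt h.1, h.2⟩⟩
          · exact ⟨hx, hy, Or.inl (aux h.1 hy (Or.inl h.2))⟩
          · exact ⟨hx, hy, Or.inl (aux h1 hy (Or.inr (Or.inl h2)))⟩
          · exact ⟨hx, hy, Or.inl (aux h1 hy (Or.inr (Or.inr h2)))⟩
          · exact ⟨hx, hy, Or.inr ⟨h1, h2⟩⟩
  refine til_congr (main m le_rfl) ?_
  rintro ⟨x, y⟩
  constructor
  · rintro ⟨hx, hy, h⟩
    exact ⟨hx, hy, Or.inl ⟨hp.1 x hx, h⟩⟩
  · rintro ⟨hx, hy, h | h⟩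
    · exact ⟨hx, hy, h.2⟩
    · have := hp.1 x hx
      have := h.1
      dsimp only at *
      omega

/-- `L` tileable sets counted positively and `L` counted negatively cover every point once in
total. -/
def Bal (S : Sp) (L : ℕ) : Prop :=
  ∃ E O : ℕ → Set S.X, (∀ l, S.Til (E l)) ∧ (∀ l, S.Til (O l)) ∧
    (∀ l, L ≤ l → E l = ∅ ∧ O l = ∅) ∧
    ∀ σ, ∑ l ∈ Finset.range L, ((E l).indicator (fun _ => (1 : ℤ)) σ -
      (O l).indicator (fun _ => (1 : ℤ)) σ) = 1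

lemma merge_core {S : Sp} {L : ℕ} (hS : S.Bal L) {Ω : Set P.X} {Ω' : Set Q.X} {m M : ℕ}
    {p : P.X → ℕ} {q : Q.X → ℕ} (hp : P.Path Ω m p) (hq : Q.Path Ω' (M + 1) q)
    (hM : M % 2 = 0) (hMm : 2 * m ≤ M) (hm : m % 2 = 1) (hmL : 2 * L ≤ m) :
    (S.prod (P.prod Q)).Til (univ ×ˢ (Ω ×ˢ Ω')) := by
  classical
  obtain ⟨E, O, hE, hO, hL, hsum⟩ := hS
  let G : ℕ → Set S.X := fun z => if z % 2 = 0 then E (z / 2) else O (z / 2)
  have hG : ∀ z, S.Til (G z) := by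
    intro z
    simp only [G]
    split_ifs
    · exact hE _
    · exact hO _
  have hG0 : ∀ l, G (2 * l) = E l := by
    intro l
    simp only [G]
    rw [if_pos (by omega), show 2 * l / 2 = l by omega]
  have hG1 : ∀ l, G (2 * l + 1) = O l := by
    intro l
    simp only [G]
    rw [if_neg (by omega), show (2 * l + 1) / 2 = l by omega]
  have R1 : (S.prod (P.prod Q)).Til (⋃ z, G z ×ˢ
      (({x | x ∈ Ω ∧ p x = z} ×ˢ {y | y ∈ Ω' ∧ q y = M} : Set (P.X × Q.X)))) := by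
    refine til_iUnion (P := S.prod (P.prod Q)) _
      (fun z => til_left (Q := P.prod Q) (hG z) _) ?_
    rintro k l ⟨σ, x, y⟩ ⟨-, ⟨-, h1⟩, -⟩ ⟨-, ⟨-, h2⟩, -⟩
    exact h1.symm.trans h2
  have R2 : (S.prod (P.prod Q)).Til {w : S.X × (P.X × Q.X) | w.2.1 ∈ Ω ∧ w.2.2 ∈ Ω' ∧
      ¬ (w.1 ∈ G (p w.2.1) ∧ q w.2.2 = M)} := by
    refine til_fib (Q := P.prod Q) _ fun σ => ?_
    let f : ℕ → ℤ := fun z => (G z).indicator (fun _ => (1 : ℤ)) σ
    have hf : ∀ z, f z = 0 ∨ f z = 1 := by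
      intro z
      by_cases h : σ ∈ G z
      · right; simp [f, h]
      · left; simp [f, h]
    have hf1 : ∀ z, f z = 1 ↔ σ ∈ G z := by
      intro z
      by_cases h : σ ∈ G z <;> simp [f, h]
    let xs : ℕ → ℤ := fun z => Nat.rec 0 (fun z v => 1 - f z - v) z
    have hs : ∀ z, xs (z + 1) = 1 - f z - xs z := fun z => rfl
    have h2 : ∀ l, xs (2 * l) = ∑ j ∈ Finset.range l, ((E j).indicator (fun _ => (1 : ℤ)) σ -
        (O j).indicator (fun _ => (1 : ℤ)) σ) := by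
      intro l
      induction l with
      | zero => rfl
      | succ l ih =>
        rw [Finset.sum_range_succ, ← ih, show 2 * (l + 1) = 2 * l + 1 + 1 by ring, hs, hs]
        simp only [f, hG0, hG1]
        ring
    have h3 : ∀ l, xs (2 * (L + l)) = 1 := by
      intro l
      rw [h2, Finset.sum_range_add, hsum σ, Finset.sum_eq_zero, add_zero]
      intro j _
      rw [(hL (L + j) (by omega)).1, (hL (L + j) (by omega)).2]
      simp
    have hm0 : xs m = 0 := by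
      have : m = 2 * (L + (m / 2 - L)) + 1 := by omega
      rw [this, hs, h3]
      simp only [f, hG0]
      rw [(hL _ (by omega)).1]
      simp
    refine til_congr (grid hp hq hM hMm f xs hf rfl hs hm0) ?_
    rintro ⟨x, y⟩
    show (x ∈ Ω ∧ y ∈ Ω' ∧ ¬ (σ ∈ G (p x) ∧ q y = M)) ↔ (x ∈ Ω ∧ y ∈ Ω' ∧ ¬ (f (p x) = 1 ∧ q y = M))
    rw [hf1]
  refine til_congr (til_union R1 R2 ?_) ?_
  · rintro ⟨σ, x, y⟩ h1 ⟨-, -, h2⟩
    obtain ⟨z, h3, ⟨-, h4⟩, -, h5⟩ := mem_iUnion.1 h1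
    dsimp only at h3 h4 h5 h2
    exact h2 ⟨h4 ▸ h3, h5⟩
  · rintro ⟨σ, x, y⟩
    constructor
    · rintro ⟨-, hx, hy⟩
      by_cases h : σ ∈ G (p x) ∧ q y = M
      · exact Or.inl (mem_iUnion.2 ⟨p x, h.1, ⟨hx, rfl⟩, hy, h.2⟩)
      · exact Or.inr ⟨hx, hy, h⟩
    · rintro (h | ⟨hx, hy, -⟩)
      · obtain ⟨z, -, ⟨hx, -⟩, hy, -⟩ := mem_iUnion.1 h
        exact ⟨mem_univ _, hx, hy⟩
      · exact ⟨mem_univ _, hx, hy⟩

end Sp

end Pool.Agent.H.MP_ddef6b_co
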