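import Pool.Agent.H.MP_ddef6b_co.A

set_option autoImplicit false

namespace Pool.Agent.H.MP_ddef6b_co

open Set

/-- The space `P` is `ℤ^n`, its copies being translates of `T` along coordinate axes. -/
def Rl (T : Finset ℤ) (n : ℕ) (P : Sp) : Prop :=
  ∃ e : P.X ≃ (Fin n → ℤ), ∀ S, P.cp S → ∃ v : Fin n → ℤ, ∃ i : Fin n,
    e '' S = (fun a : ℤ => v + a • Pi.single i (1 : ℤ)) '' (T : Set ℤ)

lemma app_left {a b : ℕ} (v : Fin a → ℤ) (w : Fin b → ℤ) (i : Fin a) (c : ℤ) :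
    Fin.append (v + c • Pi.single i (1 : ℤ)) w =
      Fin.append v w + c • Pi.single (Fin.castAdd b i) (1 : ℤ) := by
  funext j
  refine Fin.addCases (fun j => ?_) (fun j => ?_) j
  · simp [Pi.single_apply, Fin.ext_iff]
  · have : Fin.natAdd a j ≠ Fin.castAdd b i := by
      intro h
      have := congrArg Fin.val h
      simp at this
      omega
    simp [Pi.single_apply, this]

lemma app_right {a b : ℕ} (v : Fin a → ℤ) (w : Fin b → ℤ) (i : Fin b) (c : ℤ) :
    Fin.append v (w + c • Pi.single i (1 : ℤ)) =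
      Fin.append v w + c • Pi.single (Fin.natAdd a i) (1 : ℤ) := by
  funext j
  refine Fin.addCases (fun j => ?_) (fun j => ?_) j
  · have : Fin.castAdd b j ≠ Fin.natAdd a i := by
      intro h
      have := congrArg Fin.val h
      simp at this
      omega
    simp [Pi.single_apply, this]
  · simp [Pi.single_apply, Fin.ext_iff]

lemma rl_prod {T : Finset ℤ} {a b : ℕ} {P Q : Sp} (hP : Rl T a P) (hQ : Rl T b Q) :
    Rl T (a + b) (P.prod Q) := by
  obtain ⟨e1, h1⟩ := hP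
  obtain ⟨e2, h2⟩ := hQ
  let e : P.X × Q.X ≃ (Fin (a + b) → ℤ) := (Equiv.prodCongr e1 e2).trans (Fin.appendEquiv a b)
  have he : ∀ x y, e (x, y) = Fin.append (e1 x) (e2 y) := fun x y => rfl
  refine ⟨e, ?_⟩
  rintro S (⟨A, y, hA, rfl⟩ | ⟨x, B, hB, rfl⟩)
  · obtain ⟨v, i, hv⟩ := h1 A hA
    refine ⟨Fin.append v (e2 y), Fin.castAdd b i, ?_⟩
    ext w
    constructor
    · rintro ⟨⟨x, y'⟩, ⟨hx, hy⟩, rfl⟩
      have hy' : y' = y := hy
      have : e1 x ∈ e1 '' A := ⟨x, hx, rfl⟩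
      rw [hv] at this
      obtain ⟨c, hc, hc'⟩ := this
      refine ⟨c, hc, ?_⟩
      dsimp only at hc' ⊢
      rw [← app_left, hc', ← hy']
      exact (he x y').symm
    · rintro ⟨c, hc, rfl⟩
      have : v + c • Pi.single i (1 : ℤ) ∈ e1 '' A := by
        rw [hv]; exact ⟨c, hc, rfl⟩
      obtain ⟨x, hx, hx'⟩ := this
      refine ⟨(x, y), ⟨hx, rfl⟩, ?_⟩
      dsimp only
      rw [← app_left, ← hx']
      exact he x y
  · obtain ⟨v, i, hv⟩ := h2 B hB
    refine ⟨Fin.append (e1 x) v, Fin.natAdd a i, ?_⟩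
    ext w
    constructor
    · rintro ⟨⟨x', y⟩, ⟨hx, hy⟩, rfl⟩
      have hx' : x' = x := hx
      have : e2 y ∈ e2 '' B := ⟨y, hy, rfl⟩
      rw [hv] at this
      obtain ⟨c, hc, hc'⟩ := this
      refine ⟨c, hc, ?_⟩
      dsimp only at hc' ⊢
      rw [← app_right, hc', ← hx']
      exact (he x' y).symm
    · rintro ⟨c, hc, rfl⟩
      have : v + c • Pi.single i (1 : ℤ) ∈ e2 '' B := by
        rw [hv]; exact ⟨c, hc, rfl⟩
      obtain ⟨y, hy, hy'⟩ := this
      refine ⟨(x, y), ⟨rfl, hy⟩, ?_⟩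
      dsimp only
      rw [← app_right, ← hy']
      exact he x y

lemma path_pow {T : Finset ℤ} {n : ℕ} {P : Sp} {U : Set P.X} {κ : Type} {q : P.X → ℕ}
    (hq : P.Path U 3 q) (hc : P.Cov U κ) (hr : Rl T n P) (k : ℕ) :
    ∃ (Q : Sp) (Ω : Set Q.X) (p : Q.X → ℕ), Q.Path Ω (3 ^ (k + 1)) p ∧ Q.Cov Ω κ ∧
      Rl T (n * (k + 1)) Q := by
  induction k with
  | zero => exact ⟨P, U, q, by simpa using hq, hc, by simpa using hr⟩
  | succ k ih =>
    obtain ⟨Q, Ω, p, h1, h2, h3⟩ := ih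
    obtain ⟨r, hr'⟩ := Sp.path_mul h1 hq
    refine ⟨Q.prod P, Ω ×ˢ U, r, ?_, Sp.cov_prod h2 hc, ?_⟩
    · rw [pow_succ, mul_comm]; exact hr'
    · rw [show n * (k + 1 + 1) = n * (k + 1) + n by ring]; exact rl_prod h3 hr

lemma merge {T : Finset ℤ} {L n k : ℕ} {S P : Sp} (hS : Rl T 2 S) (hB : S.Bal L) (hP : Rl T n P)
    (hc : P.Cov ∅ (Fin (k + 2))) :
    ∃ Q : Sp, Rl T (2 + (n * (L + 1) + n * (L + 1 + 1))) Q ∧ Q.Cov ∅ (Fin (k + 1)) := by
  obtain ⟨B, hB1, hB2⟩ := hc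
  obtain ⟨q, hq⟩ := Sp.path3 (hB1 0) (hB1 1)
  have hc' : P.Cov (B 0 ∪ B 1) (Fin k) := by
    refine ⟨fun i => B i.succ.succ, fun i => hB1 _, fun x hx => ?_⟩
    obtain ⟨i, hi⟩ := hB2 x (notMem_empty x)
    revert hi
    refine Fin.cases (fun hi => absurd (Or.inl hi) hx) (fun i => ?_) i
    exact Fin.cases (fun hi => absurd (Or.inr hi) hx) (fun i hi => ⟨i, hi⟩) i
  obtain ⟨Q1, Ω1, p1, a1, a2, a3⟩ := path_pow hq hc' hP L
  obtain ⟨Q2, Ω2, p2, b1, b2, b3⟩ := path_pow hq hc' hP (L + 1)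
  have hodd : 3 ^ (L + 1) % 2 = 1 := by
    rw [Nat.pow_mod]; simp
  have hbig : 2 * L ≤ 3 ^ (L + 1) ∧ 1 ≤ 3 ^ (L + 1) := by
    have : L < 3 ^ L := Nat.lt_pow_self (by norm_num)
    rw [pow_succ]
    omega
  have hM : 3 ^ (L + 1 + 1) = (3 * 3 ^ (L + 1) - 1) + 1 := by
    rw [pow_succ 3 (L + 1)]
    omega
  rw [hM] at b1
  have hT := Sp.merge_core hB a1 b1 (by omega) (by omega) hodd hbig.1
  obtain ⟨B', c1, c2⟩ := Sp.cov_prod (Sp.cov_univ (P := S) (Fin k)) (Sp.cov_prod a2 b2)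
  refine ⟨S.prod (Q1.prod Q2), rl_prod hS (rl_prod a3 b3),
    Fin.cons (α := fun _ => Set (S.prod (Q1.prod Q2)).X) (univ ×ˢ (Ω1 ×ˢ Ω2)) B', ?_, ?_⟩
  · intro i
    exact Fin.cases hT c1 i
  · intro x _
    by_cases hx : x ∈ (univ ×ˢ (Ω1 ×ˢ Ω2) : Set (S.X × (Q1.X × Q2.X)))
    · exact ⟨0, hx⟩
    · obtain ⟨i, hi⟩ := c2 x hx
      exact ⟨i.succ, hi⟩

lemma iter (L k : ℕ) : ∀ n : ℕ, ∃ d : ℕ, ∀ (T : Finset ℤ) (S P : Sp), Rl T 2 S → S.Bal L →
    Rl T n P → P.Cov ∅ (Fin (k + 1)) → ∃ Q : Sp, Rl T d Q ∧ Q.Til univ := by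
  induction k with
  | zero =>
    intro n
    refine ⟨n, fun T S P _ _ hP hc => ⟨P, hP, ?_⟩⟩
    obtain ⟨B, h1, h2⟩ := hc
    refine Sp.til_congr (h1 0) fun x => ⟨fun _ => ?_, fun _ => mem_univ _⟩
    obtain ⟨i, hi⟩ := h2 x (notMem_empty x)
    have : i = 0 := Fin.ext (by have := i.2; simp only [Fin.val_zero]; omega)
    rwa [this] at hi
  | succ k ih =>
    intro n
    obtain ⟨d, hd⟩ := ih (2 + (n * (L + 1) + n * (L + 1 + 1)))
    refine ⟨d, fun T S P hS hB hP hc => ?_⟩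
    obtain ⟨Q, h1, h2⟩ := merge hS hB hP hc
    exact hd T S Q hS hB h1 h2

lemma mono {T : Finset ℤ} {d d' : ℕ} (h : d ≤ d') (hQ : ∃ Q : Sp, Rl T d Q ∧ Q.Til univ) :
    ∃ Q : Sp, Rl T d' Q ∧ Q.Til univ := by
  obtain ⟨Q, h1, h2⟩ := hQ
  obtain ⟨j, rfl⟩ := Nat.exists_eq_add_of_le h
  let Z : Sp := ⟨Fin j → ℤ, fun _ => False⟩
  have hZ : Rl T j Z := ⟨Equiv.refl _, fun _ h => h.elim⟩
  refine ⟨Q.prod Z, rl_prod h1 hZ, Sp.til_congr (Sp.til_left (Q := Z) h2 univ) ?_⟩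
  intro x
  exact ⟨fun _ => ⟨mem_univ _, mem_univ _⟩, fun _ => mem_univ _⟩

lemma bal_of_fintype {S : Sp} {ι : Type} [Fintype ι] (E O : ι → Set S.X) (hE : ∀ i, S.Til (E i))
    (hO : ∀ i, S.Til (O i))
    (h : ∀ σ, ∑ i, ((E i).indicator (fun _ => (1 : ℤ)) σ -
      (O i).indicator (fun _ => (1 : ℤ)) σ) = 1) : S.Bal (Fintype.card ι) := by
  let e := Fintype.equivFin ι
  refine ⟨fun l => if h : l < Fintype.card ι then E (e.symm ⟨l, h⟩) else ∅,
    fun l => if h : l < Fintype.card ι then O (e.symm ⟨l, h⟩) else ∅, ?_, ?_, ?_, ?_⟩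
  · intro l
    dsimp only
    split_ifs
    · exact hE _
    · exact Sp.til_empty
  · intro l
    dsimp only
    split_ifs
    · exact hO _
    · exact Sp.til_empty
  · intro l hl
    simp [not_lt.2 hl]
  · intro σ
    refine Eq.trans ?_ (h σ)
    rw [Finset.sum_range, ← Equiv.sum_comp e.symm]
    refine Finset.sum_congr rfl fun l _ => ?_
    simp [l.2]

lemma greedy (D : ℕ) (nb : ℕ → Finset ℕ) (h : ∀ n, (nb n).card ≤ D) :
    ∃ c : ℕ → Fin (D + 1), ∀ n, ∀ m ∈ nb n, m < n → c m ≠ c n := by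
  classical
  have step : ∀ n, ∀ g : (m : ℕ) → m < n → Fin (D + 1), ∃ b : Fin (D + 1),
      ∀ m ∈ nb n, ∀ hm : m < n, g m hm ≠ b := by
    intro n g
    let U : Finset (Fin (D + 1)) := (nb n).image fun m => if hm : m < n then g m hm else 0
    have hU : U.card < (Finset.univ : Finset (Fin (D + 1))).card := by
      have := (Finset.card_image_le (s := nb n)
        (f := fun m => if hm : m < n then g m hm else 0)).trans (h n)
      rw [Finset.card_univ, Fintype.card_fin]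
      exact Nat.lt_succ_of_le this
    obtain ⟨b, -, hb⟩ := Finset.exists_mem_notMem_of_card_lt_card hU
    refine ⟨b, fun m hm hm' hb' => hb ?_⟩
    exact Finset.mem_image.2 ⟨m, hm, by rw [dif_pos hm', hb']⟩
  choose F hF using step
  let c : ℕ → Fin (D + 1) := (wellFounded_lt (α := ℕ)).fix F
  have hc : ∀ n, c n = F n fun m _ => c m := fun n => WellFounded.fix_eq _ F n
  refine ⟨c, fun n m hm hm' => ?_⟩
  rw [hc n]
  exact hF n (fun m _ => c m) m hm hm'

lemma colour (T : Finset ℤ) : ∃ a : ℤ → Fin (T.card * T.card + 1),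
    ∀ x, ∀ s ∈ T, ∀ s' ∈ T, a (x - s) = a (x - s') → s = s' := by
  classical
  let e : ℤ ≃ ℕ := Denumerable.eqv ℤ
  obtain ⟨c, hc⟩ := greedy (T.card * T.card)
    (fun n => (T ×ˢ T).image fun p : ℤ × ℤ => e (e.symm n + p.1 - p.2))
    (fun n => Finset.card_image_le.trans (by rw [Finset.card_product]))
  refine ⟨fun x => c (e x), fun x s hs s' hs' h => ?_⟩
  have key : ∀ s ∈ T, ∀ s' ∈ T, e (x - s') < e (x - s) → c (e (x - s')) ≠ c (e (x - s)) := by
    intro s hs s' hs' hlt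
    refine hc _ _ (Finset.mem_image.2 ⟨(s, s'), Finset.mem_product.2 ⟨hs, hs'⟩, ?_⟩) hlt
    rw [Equiv.symm_apply_apply]
    congr 1
    ring
  rcases lt_trichotomy (e (x - s)) (e (x - s')) with h1 | h1 | h1
  · exact absurd h (key s' hs' s hs h1)
  · have := e.injective h1
    omega
  · exact absurd h.symm (key s hs s' hs' h1)

lemma half (R : Type) [CommRing R] (T : Finset ℤ) (hT : T.Nonempty) :
    ∃ w : ℤ → R, ∀ x, ∑ s ∈ T, w (x - s) = if 0 ≤ x then 1 else 0 := by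
  classical
  let m := T.min' hT
  have hm : ∀ s ∈ T, m ≤ s := fun s hs => T.min'_le s hs
  let Pw : PowerSeries R := ∑ s ∈ T, PowerSeries.X ^ (s - m).toNat
  have h0 : PowerSeries.constantCoeff Pw = ((1 : Rˣ) : R) := by
    simp only [Pw, map_sum, map_pow, PowerSeries.constantCoeff_X, Units.val_one]
    rw [Finset.sum_eq_single m]
    · simp
    · intro s hs hne
      have := hm s hs
      rw [zero_pow (by omega)]
    · intro h
      exact absurd (T.min'_mem hT) h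
  let W : PowerSeries R := PowerSeries.invOfUnit Pw 1 * PowerSeries.mk fun _ => 1
  have hW : Pw * W = PowerSeries.mk fun _ => 1 := by
    simp only [W]
    rw [← mul_assoc, PowerSeries.mul_invOfUnit Pw 1 h0, one_mul]
  refine ⟨fun y => if 0 ≤ y + m then PowerSeries.coeff (y + m).toNat W else 0, fun x => ?_⟩
  split_ifs with hx
  · have := congrArg (PowerSeries.coeff x.toNat) hW
    rw [PowerSeries.coeff_mk] at this
    rw [← this]
    simp only [Pw, Finset.sum_mul, map_sum, PowerSeries.coeff_X_pow_mul']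
    refine Finset.sum_congr rfl fun s hs => ?_
    have := hm s hs
    by_cases h1 : 0 ≤ x - s + m
    · rw [if_pos h1, if_pos (by omega)]
      congr 2
      omega
    · rw [if_neg h1, if_neg (by omega)]
  · refine Finset.sum_eq_zero fun s hs => ?_
    have := hm s hs
    exact if_neg (by omega)

lemma weights (R : Type) [CommRing R] (T : Finset ℤ) (hT : T.Nonempty) :
    ∃ w : ℤ → R, ∀ x, ∑ s ∈ T, w (x - s) = 1 := by
  classical
  obtain ⟨w1, h1⟩ := half R T hT
  obtain ⟨w2, h2⟩ := half R (T.image fun s => -s) (hT.image _)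
  refine ⟨fun y => w1 y + w2 (-y - 1), fun x => ?_⟩
  have h3 := h2 (-x - 1)
  rw [Finset.sum_image (fun a _ b _ h => neg_injective h)] at h3
  rw [Finset.sum_add_distrib, h1 x]
  have : ∑ s ∈ T, w2 (-(x - s) - 1) = ∑ s ∈ T, w2 (-x - 1 - -s) :=
    Finset.sum_congr rfl fun s _ => by congr 1; ring
  rw [this, h3]
  by_cases hx : 0 ≤ x
  · rw [if_pos hx, if_neg (by omega), add_zero]
  · rw [if_neg hx, if_pos (by omega), zero_add]

/-- The line `ℤ` with the translates of `T`. -/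
def Z1 (T : Finset ℤ) : Sp := ⟨ℤ, fun S => ∃ v : ℤ, S = (fun a => v + a) '' (T : Set ℤ)⟩

lemma rl_Z1 (T : Finset ℤ) : Rl T 1 (Z1 T) := by
  refine ⟨(Equiv.funUnique (Fin 1) ℤ).symm, ?_⟩
  rintro S ⟨v, rfl⟩
  refine ⟨fun _ => v, 0, ?_⟩
  refine (Set.image_image (Equiv.funUnique (Fin 1) ℤ).symm (fun a : ℤ => v + a) (T : Set ℤ)).trans ?_
  refine Set.image_congr fun a _ => ?_
  funext j
  rw [Subsingleton.elim j 0]
  simp

lemma base (T : Finset ℤ) {ι : Type} [Fintype ι] (κ : ℤ → ι)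
    (hκ : ∀ x, ∀ s ∈ T, ∀ s' ∈ T, κ (x - s) = κ (x - s') → s = s') :
    ∃ F : ι → Set ℤ, (∀ i, (Z1 T).Til (F i)) ∧ (∀ x, ∀ s ∈ T, x ∈ F (κ (x - s))) ∧
      ∀ (g : ι → ℤ) (x : ℤ), ∑ i, (F i).indicator (fun _ => g i) x = ∑ s ∈ T, g (κ (x - s)) := by
  classical
  refine ⟨fun i => {x | ∃ s ∈ T, κ (x - s) = i}, fun i => ?_, fun x s hs => ⟨s, hs, rfl⟩, ?_⟩
  · have := Sp.til_iUnion (P := Z1 T)
      (fun v : {v : ℤ // κ v = i} => ((fun a => v.1 + a) '' (T : Set ℤ) : Set ℤ))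
      (fun v => Sp.til_copy ⟨v.1, rfl⟩) (by
        rintro ⟨v, hv⟩ ⟨v', hv'⟩ x ⟨s, hs, h1⟩ ⟨s', hs', h2⟩
        have h1' : v + s = (show ℤ from x) := h1
        have h2' : v' + s' = (show ℤ from x) := h2
        have e1 : (show ℤ from x) - s = v := by omega
        have e2 : (show ℤ from x) - s' = v' := by omega
        have := hκ x s hs s' hs' (by rw [e1, e2, hv, hv'])
        exact Subtype.ext (by dsimp only; omega))
    refine Sp.til_congr this fun x => ?_
    constructor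
    · rintro ⟨s, hs, h⟩
      exact mem_iUnion.2 ⟨⟨_, h⟩, s, hs, sub_add_cancel _ _⟩
    · intro h
      obtain ⟨⟨v, hv⟩, s, hs, h1⟩ := mem_iUnion.1 h
      have h1' : v + s = (show ℤ from x) := h1
      have e1 : (show ℤ from x) - s = v := by omega
      exact ⟨s, hs, by rw [e1, hv]⟩
  · intro g x
    have h1 : ∀ i, ({x | ∃ s ∈ T, κ (x - s) = i} : Set ℤ).indicator (fun _ => g i) x =
        if i ∈ T.image (fun s => κ (x - s)) then g i else 0 := by
      intro i
      simp [Set.indicator_apply]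
    simp only [h1]
    rw [Finset.sum_ite_mem, Finset.univ_inter, Finset.sum_image]
    intro s hs s' hs' h
    exact hκ x s hs s' hs' h

lemma cnt (t c : ℕ) (hc : c ≤ t) : ∑ j : Fin t, (if j.val < c then (1 : ℤ) else 0) = c := by
  rw [Fin.sum_univ_eq_sum_range (fun j => if j < c then (1 : ℤ) else 0) t, Finset.sum_boole]
  congr 1
  have : (Finset.range t).filter (fun j => j < c) = Finset.range c := by
    ext j
    simp only [Finset.mem_filter, Finset.mem_range]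
    omega
  rw [this, Finset.card_range]

lemma fixed (t : ℕ) : ∃ d : ℕ, ∀ T : Finset ℤ, T.card = t + 1 →
    ∃ Q : Sp, Rl T d Q ∧ Q.Til univ := by
  classical
  let ι := Fin ((t + 1) * (t + 1) + 1) × ZMod (t + 1)
  obtain ⟨k, hk⟩ : ∃ k, Fintype.card ι = k + 1 :=
    Nat.exists_eq_succ_of_ne_zero Fintype.card_ne_zero
  obtain ⟨d, hd⟩ := iter (Fintype.card (ι × Fin (t + 1))) k 1
  refine ⟨d, fun T hT => ?_⟩
  have hne : T.Nonempty := Finset.card_pos.1 (by omega)
  obtain ⟨a, ha⟩ : ∃ a : ℤ → Fin ((t + 1) * (t + 1) + 1),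
      ∀ x, ∀ s ∈ T, ∀ s' ∈ T, a (x - s) = a (x - s') → s = s' := by
    rw [← hT]; exact colour T
  obtain ⟨w, hw⟩ := weights (ZMod (t + 1)) T hne
  obtain ⟨F, hF1, hF2, hF3⟩ := base T (ι := ι) (fun x => (a x, w x))
    (fun x s hs s' hs' h => ha x s hs s' hs' (congrArg Prod.fst h))
  let v : ℤ → ℕ := fun x => ∑ s ∈ T, ((w (x - s)).val + 1)
  have hv : ∀ x, ∃ h : ℕ, h ≤ t + 1 ∧ v x = 1 + (t + 1) * h := by
    intro x
    have h1 : ((v x : ℕ) : ZMod (t + 1)) = ((1 : ℕ) : ZMod (t + 1)) := by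
      simp only [v, Nat.cast_sum, Nat.cast_add, ZMod.natCast_zmod_val, Nat.cast_one]
      rw [Finset.sum_add_distrib, hw x, Finset.sum_const, hT, nsmul_eq_mul, ZMod.natCast_self]
      simp
    have h2 : 1 ≤ v x := by
      obtain ⟨s, hs⟩ := hne
      exact le_trans (Nat.le_add_left 1 _)
        (Finset.single_le_sum (f := fun s => (w (x - s)).val + 1) (fun _ _ => Nat.zero_le _) hs)
    have h3 : v x ≤ (t + 1) * (t + 1) := by
      have := Finset.sum_le_card_nsmul T (fun s => (w (x - s)).val + 1) (t + 1)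
        (fun s _ => ZMod.val_lt _)
      rwa [hT, smul_eq_mul] at this
    obtain ⟨h, hh⟩ := (Nat.modEq_iff_dvd' h2).1 ((ZMod.natCast_eq_natCast_iff _ _ _).1 h1).symm
    refine ⟨h, ?_, by omega⟩
    by_contra hlt
    have : (t + 1) * (t + 1) ≤ (t + 1) * h := Nat.mul_le_mul_left _ (by omega)
    omega
  choose h hh1 hh2 using hv
  refine hd T ((Z1 T).prod (Z1 T)) (Z1 T) (rl_prod (rl_Z1 T) (rl_Z1 T)) ?_ (rl_Z1 T) ?_
  · refine bal_of_fintype (S := (Z1 T).prod (Z1 T))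
      (fun p : ι × Fin (t + 1) => if p.2.val < p.1.2.val + 1 then
        (F p.1 ×ˢ (univ : Set ℤ) : Set (ℤ × ℤ)) else (∅ : Set (ℤ × ℤ)))
      (fun p : ι × Fin (t + 1) => ({x | p.2.val < h x} ×ˢ F p.1 : Set (ℤ × ℤ))) ?_ ?_ ?_
    · intro p
      by_cases hp : p.2.val < p.1.2.val + 1
      · exact Sp.til_congr (Sp.til_left (Q := Z1 T) (hF1 p.1) univ)
          fun x => Iff.of_eq (congrArg (x ∈ ·) (if_pos hp))
      · exact Sp.til_congr Sp.til_empty fun x => Iff.of_eq (congrArg (x ∈ ·) (if_neg hp))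
    · intro p
      exact Sp.til_right (P := Z1 T) (hF1 _) _
    · rintro ⟨x, y⟩
      have e1 : ∀ (x y : ℤ), ∑ p : ι × Fin (t + 1), (if p.2.val < p.1.2.val + 1 then
          (F p.1 ×ˢ (univ : Set ℤ) : Set (ℤ × ℤ)) else (∅ : Set (ℤ × ℤ))).indicator
          (fun _ => (1 : ℤ)) (x, y) = v x := by
        intro x y
        rw [Fintype.sum_prod_type]
        have : ∀ i : ι, ∑ j : Fin (t + 1), (if j.val < i.2.val + 1 then
            (F i ×ˢ (univ : Set ℤ) : Set (ℤ × ℤ)) else (∅ : Set (ℤ × ℤ))).indicator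
            (fun _ => (1 : ℤ)) (x, y) =
            (F i).indicator (fun _ => ((i.2.val + 1 : ℕ) : ℤ)) x := by
          intro i
          by_cases hx : x ∈ F i
          · rw [Set.indicator_of_mem hx, ← cnt (t + 1) (i.2.val + 1) (ZMod.val_lt _)]
            refine Finset.sum_congr rfl fun j _ => ?_
            split_ifs
            · exact Set.indicator_of_mem (show (x, y) ∈ F i ×ˢ (univ : Set ℤ) from
                ⟨hx, mem_univ _⟩) _
            · simp
          · rw [Set.indicator_of_notMem hx]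
            refine Finset.sum_eq_zero fun j _ => ?_
            split_ifs
            · exact Set.indicator_of_notMem (fun h => hx h.1) _
            · simp
        simp only [this]
        rw [hF3 (fun i => ((i.2.val + 1 : ℕ) : ℤ)) x]
        simp [v]
      have e2 : ∀ (x y : ℤ), ∑ p : ι × Fin (t + 1),
          ({x | p.2.val < h x} ×ˢ F p.1 : Set (ℤ × ℤ)).indicator (fun _ => (1 : ℤ)) (x, y) =
          (t + 1) * h x := by
        intro x y
        rw [Fintype.sum_prod_type]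
        have : ∀ i : ι, ∑ j : Fin (t + 1),
            ({x | j.val < h x} ×ˢ F i : Set (ℤ × ℤ)).indicator (fun _ => (1 : ℤ)) (x, y) =
            (F i).indicator (fun _ => (h x : ℤ)) y := by
          intro i
          by_cases hy : y ∈ F i
          · rw [Set.indicator_of_mem hy, ← cnt (t + 1) (h x) (hh1 x)]
            refine Finset.sum_congr rfl fun j _ => ?_
            split_ifs with hj
            · exact Set.indicator_of_mem (show (x, y) ∈ {x | j.val < h x} ×ˢ F i from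
                ⟨hj, hy⟩) _
            · exact Set.indicator_of_notMem (fun h => hj h.1) _
          · rw [Set.indicator_of_notMem hy]
            exact Finset.sum_eq_zero fun j _ => Set.indicator_of_notMem (fun h => hy h.2) _
        simp only [this]
        rw [hF3 (fun _ => (h x : ℤ)) y, Finset.sum_const, hT]
        simp
      rw [Finset.sum_sub_distrib]
      have e3 := hh2 x
      refine (congrArg₂ (· - ·) (e1 x y) (e2 x y)).trans ?_
      rw [e3]
      push_cast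
      ring
  · let e := Fintype.equivFinOfCardEq hk
    refine ⟨fun i => F (e.symm i), fun i => hF1 _, fun x _ => ?_⟩
    obtain ⟨s, hs⟩ := hne
    have key : ∀ x : ℤ, ∃ i, x ∈ F (e.symm i) := fun x =>
      ⟨e _, by rw [Equiv.symm_apply_apply]; exact hF2 x s hs⟩
    exact key x

lemma bounded (t : ℕ) : ∃ d : ℕ, ∀ T : Finset ℤ, T.Nonempty → T.card ≤ t →
    ∃ Q : Sp, Rl T d Q ∧ Q.Til univ := by
  induction t with
  | zero =>
    refine ⟨0, fun T h1 h2 => ?_⟩
    have := Finset.card_pos.2 h1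
    omega
  | succ t ih =>
    obtain ⟨d1, h1⟩ := ih
    obtain ⟨d2, h2⟩ := fixed t
    refine ⟨max d1 d2, fun T hT hc => ?_⟩
    by_cases h : T.card ≤ t
    · exact mono (le_max_left _ _) (h1 T hT h)
    · exact mono (le_max_right _ _) (h2 T (by omega))

end Pool.Agent.H.MP_ddef6b_co
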